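import Pool.Agent.Helper50.CSB.G0
import Pool.Agent.Helper50.CSB.Q5

/-!
# Positivity of `A_a B_1 C_1 - A_{a+1} C_1 - A_{a+1} B_1 + A_{a+2}`, `B` and `C` not nested
-/

namespace H50R

open H45C Equiv

variable {α : Type*} [DecidableEq α]

section fork

variable {X : Finset α} {h E : α} {A B C : Finset α}

theorem pk_in (hh : h ∉ X) (hAB : A ⊆ B) (hAC : A ⊆ C) (b c : ℤ) {G : α} (hG : G ∈ X)
    (hGA : G ∈ A) {z : Wd α} (hz : z ∈ WS X) :
    pr G (Hop B b (Hop C c (cns h z))) = 0 := by
  rw [pr_two_ne hh hG B C b c hz, if_neg fun h' => h'.2 (hAB hGA),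
    if_neg fun h' => h'.2 (hAC hGA), if_neg fun h' => h'.2 (hAB hGA), add_zero, add_zero]

theorem pk_ne (hh : h ∉ X) (hE : E ∈ X) (hAB : A ⊆ B) (hAC : A ⊆ C) (a b c : ℤ) {z : Wd α}
    (hz : z ∈ WS X) :
    pr E (Hop A a (Hop B b (Hop C c (cns h z)))) =
      (if h ∈ A ∧ E ∉ A then Hop A (a - 1) (rl (swap E h) (Hop B b (Hop C c z))) else 0) +
      Hop A a ((if h ∈ B ∧ E ∉ B then Hop B (b - 1) (rl (swap E h) (Hop C c z)) else 0) +
        (if h ∈ C ∧ E ∉ C then Hop B b (Hop C (c - 1) (rl (swap E h) z)) else 0) +
        if h ∈ C ∧ E ∉ B then ∑ G ∈ (X ∩ B) \ C,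
          Hop B (b - 1) (rl (swap E G) (Hop C (c - 1) (rl (swap G h) z))) else 0) := by
  have hy : Hop B b (Hop C c (cns h z)) ∈ WS (insert h X) := Hop_mem _ _ (Hop_mem _ _ (cns_mem hh hz))
  rw [pr_Hop hy (Finset.mem_insert_of_mem hE) A a, pr_two_ne hh hE B C b c hz, add_comm]
  congr 1
  by_cases hEA : E ∈ A
  · rw [if_pos hEA, if_neg fun h' => h'.2 hEA]
  · rw [if_neg hEA]
    by_cases hA : h ∈ A
    · rw [if_pos ⟨hA, hEA⟩]
      rw [Finset.sum_eq_single h]
      · rw [pr_two_self hh B C b c hz, if_neg fun h' => h'.1 (hAB hA), add_zero]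
      · intro G hG hGh
        rw [Finset.mem_inter, Finset.mem_insert] at hG
        have hGX : G ∈ X := hG.1.resolve_left hGh
        rw [pk_in hh hAB hAC b c hGX hG.2 hz, map_zero, map_zero]
      · intro h'
        exact absurd (Finset.mem_inter.2 ⟨Finset.mem_insert_self _ _, hA⟩) h'
    · rw [if_neg fun h' => hA h'.1]
      refine Finset.sum_eq_zero fun G hG => ?_
      rw [Finset.mem_inter, Finset.mem_insert] at hG
      have hGh : G ≠ h := fun h' => hA (h' ▸ hG.2)
      have hGX : G ∈ X := hG.1.resolve_left hGh
      rw [pk_in hh hAB hAC b c hGX hG.2 hz, map_zero, map_zero]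

theorem pk_self (hh : h ∉ X) (hAB : A ⊆ B) (hAC : A ⊆ C) (a b c : ℤ) {z : Wd α}
    (hz : z ∈ WS X) :
    pr h (Hop A a (Hop B b (Hop C c (cns h z)))) = Hop A a (Hop B b (Hop C c z) +
      if h ∉ B ∧ h ∈ C then ∑ G ∈ (X ∩ B) \ C,
        Hop B (b - 1) (rl (swap h G) (Hop C (c - 1) (rl (swap G h) z))) else 0) := by
  have hy : Hop B b (Hop C c (cns h z)) ∈ WS (insert h X) := Hop_mem _ _ (Hop_mem _ _ (cns_mem hh hz))
  rw [pr_Hop hy (Finset.mem_insert_self _ _) A a, pr_two_self hh B C b c hz]
  have h0 : (if h ∈ A then 0 else ∑ G ∈ insert h X ∩ A,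
      Hop A (a - 1) (rl (swap h G) (pr G (Hop B b (Hop C c (cns h z))))) : Wd α) = 0 := by
    split_ifs with hA
    · rfl
    · refine Finset.sum_eq_zero fun G hG => ?_
      rw [Finset.mem_inter, Finset.mem_insert] at hG
      have hGh : G ≠ h := fun h' => hA (h' ▸ hG.2)
      have hGX : G ∈ X := hG.1.resolve_left hGh
      rw [pk_in hh hAB hAC b c hGX hG.2 hz, map_zero, map_zero]
  rw [h0, add_zero]

end fork

theorem rl_rl_swap {h G : α} (z : Wd α) : rl (swap h G) (rl (swap G h) z) = z := by
  rw [rl_rl, swap_comm G h, swap_mul_self, rl_one]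

theorem rl_rl_three {E h G : α} (hGh : G ≠ h) (hGE : G ≠ E) (hEh : E ≠ h) (z : Wd α) :
    rl (swap E G) (rl (swap G h) z) = rl (swap h G) (rl (swap E h) z) := by
  have key : swap E G * swap G h = swap h G * swap E h := by
    refine Equiv.ext fun x => ?_
    rw [Perm.mul_apply, Perm.mul_apply]
    by_cases h1 : x = E
    · subst h1
      rw [swap_apply_of_ne_of_ne hGE.symm hEh, swap_apply_left, swap_apply_left, swap_apply_left]
    by_cases h2 : x = G
    · subst h2
      rw [swap_apply_left, swap_apply_of_ne_of_ne hEh.symm hGh.symm,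
        swap_apply_of_ne_of_ne hGE hGh, swap_apply_right]
    by_cases h3 : x = h
    · subst h3
      rw [swap_apply_right, swap_apply_right, swap_apply_right,
        swap_apply_of_ne_of_ne hEh hGE.symm]
    rw [swap_apply_of_ne_of_ne h2 h3, swap_apply_of_ne_of_ne h1 h2,
      swap_apply_of_ne_of_ne h1 h3, swap_apply_of_ne_of_ne h3 h2]
  rw [rl_rl, rl_rl, key]

theorem kapa_mem {X : Finset α} (A B C : Finset α) (a : ℤ) {z : Wd α} (hz : z ∈ WS X) :
    kapa A B C a z ∈ WS X := by
  unfold kapa
  exact Submodule.add_mem _ (Submodule.sub_mem _ (Submodule.sub_mem _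
    (Hop_mem _ _ (Hop_mem _ _ (Hop_mem _ _ hz))) (Hop_mem _ _ (Hop_mem _ _ hz)))
    (Hop_mem _ _ (Hop_mem _ _ hz))) (Hop_mem _ _ hz)

/-- the operator `kapa` -/
noncomputable def kapaE (A B C : Finset α) (a : ℤ) : Module.End ℤ (Wd α) :=
  Hop A a * (Hop B 1 * Hop C 1) - Hop A (a + 1) * Hop C 1 - Hop A (a + 1) * Hop B 1 +
    Hop A (a + 2)

theorem kapaE_apply (A B C : Finset α) (a : ℤ) (z : Wd α) : kapaE A B C a z = kapa A B C a z :=
  rfl

theorem kapa_pos_aux (n : ℕ) : ∀ X : Finset α, X.card = n → ∀ (A B C : Finset α) (a : ℤ),
    A ⊆ B → A ⊆ C → (∀ x ∈ X, x ∈ B → x ∈ C → x ∈ A) → 2 ≤ a →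
    (((B \ A) ∩ X).card : ℤ) ≤ 1 → (((C \ A) ∩ X).card : ℤ) ≤ 1 →
    ∀ z : Wd α, z ∈ WS X → WN z → WN (kapa A B C a z) := by
  induction n with
  | zero =>
    intro X hX A B C a _ _ _ ha _ _ z hz hn
    refine WN_of_words (kapaE A B C a) ?_ hz hn
    intro u hu huX
    rw [Finset.card_eq_zero] at hX
    have hu' : u = [] := by
      rw [hX, List.toFinset_eq_empty_iff] at huX
      exact huX
    subst hu'
    rw [kapaE_apply]
    have e1 : Hop C 1 (wd ([] : List α)) = 0 := by
      rw [Hop_wd, hop_nil, if_neg (by norm_num)]
    have e2 : Hop B 1 (wd ([] : List α)) = 0 := by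
      rw [Hop_wd, hop_nil, if_neg (by norm_num)]
    have e3 : Hop A (a + 2) (wd ([] : List α)) = 0 := by
      rw [Hop_wd, hop_nil, if_neg (by omega)]
    unfold kapa
    rw [e1, e2, e3]
    simp only [map_zero, sub_zero, add_zero]
    exact WN.zero
  | succ n ih =>
    intro X hX A B C a hAB hAC hBC ha h1 h2 z hz hn
    refine WN_of_words (kapaE A B C a) ?_ hz hn
    intro u hu huX
    rw [kapaE_apply]
    clear hz hn z
    match u, hu, huX with
    | [], _, huX =>
      rw [List.toFinset_nil] at huX
      rw [← huX] at hX
      simp at hX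
    | h :: u, hu, huX =>
      obtain ⟨hq, hu'⟩ := List.nodup_cons.1 hu
      obtain ⟨Y, hY⟩ : ∃ Y, Y = u.toFinset := ⟨_, rfl⟩
      have hh : h ∉ Y := fun h' => hq (List.mem_toFinset.1 (hY ▸ h'))
      have hXi : X = insert h Y := by
        rw [← huX, List.toFinset_cons, hY]
      have hz : wd u ∈ WS Y := wd_mem u hu' hY.symm
      have hn : WN (wd u) := WN.wd u
      rw [← cns_wd]
      generalize wd u = z at hz hn
      clear hu hq hu' huX hY u
      subst hXi
      have hYc : Y.card = n := by
        rw [Finset.card_insert_of_notMem hh] at hX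
        omega
      have hzX : kapa A B C a (cns h z) ∈ WS (insert h Y) := kapa_mem A B C a (cns_mem hh hz)
      refine WN_of_pr ⟨h, Finset.mem_insert_self _ _⟩ hzX ?_
      have hsub : Y ⊆ insert h Y := Finset.subset_insert _ _
      intro E hE
      rcases Finset.mem_insert.1 hE with rfl | hE
      · -- the same letter
        have e : pr E (kapa A B C a (cns E z)) = kapa A B C a z +
            Hop A a (if E ∉ B ∧ E ∈ C then ∑ G ∈ (Y ∩ B) \ C,
              Hop B (1 - 1) (rl (swap E G) (Hop C (1 - 1) (rl (swap G E) z))) else 0) := by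
          unfold kapa
          rw [map_add, map_sub, map_sub, pk_self hh hAB hAC a 1 1 hz,
            pn2_self hh hAC (a + 1) 1 hz, pn2_self hh hAB (a + 1) 1 hz,
            pr_Hop_self hh A (a + 2) hz, map_add]
          abel
        rw [e]
        have g1 := gap_le (A := A) (B := B) hsub
        have g2 := gap_le (A := A) (B := C) hsub
        refine WN.add (ih Y hYc A B C a hAB hAC (fun x hx => hBC x (hsub hx)) ha (g1.trans h1)
          (g2.trans h2) z hz hn) ?_
        have a3 : (1 : ℤ) - 1 = 0 := by norm_num
        rw [a3]
        simp only [Hop_zero, Module.End.one_apply, rl_rl_swap]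
        split_ifs with hc
        · exact WN_Hop A a (Submodule.sum_mem _ fun _ _ => hz) (WN.sum _ _ fun _ _ => hn)
        · rw [map_zero]
          exact WN.zero
      · -- another letter
        have hEh : E ≠ h := fun h' => hh (h' ▸ hE)
        have hzE : rl (swap E h) z ∈ WS ((insert h Y).erase E) := swap_mem hh hE hz
        have hnE : WN (rl (swap E h) z) := WN_rl _ hn
        have hZX : (insert h Y).erase E ⊆ insert h Y := Finset.erase_subset _ _
        have hhZ : h ∈ (insert h Y).erase E :=
          Finset.mem_erase.2 ⟨hEh.symm, Finset.mem_insert_self _ _⟩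
        have e : pr E (kapa A B C a (cns h z)) =
            ((if h ∈ A ∧ E ∉ A then Hop A (a - 1) (rl (swap E h) (Hop B 1 (Hop C 1 z))) else 0) +
              Hop A a ((if h ∈ B ∧ E ∉ B then Hop B (1 - 1) (rl (swap E h) (Hop C 1 z)) else 0) +
              (if h ∈ C ∧ E ∉ C then Hop B 1 (Hop C (1 - 1) (rl (swap E h) z)) else 0) +
              if h ∈ C ∧ E ∉ B then ∑ G ∈ (Y ∩ B) \ C,
                Hop B (1 - 1) (rl (swap E G) (Hop C (1 - 1) (rl (swap G h) z))) else 0)) -
            ((if h ∈ A ∧ E ∉ A then Hop A (a + 1 - 1) (rl (swap E h) (Hop C 1 z)) else 0) +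
              (if h ∈ C ∧ E ∉ C then Hop A (a + 1) (Hop C (1 - 1) (rl (swap E h) z)) else 0)) -
            ((if h ∈ A ∧ E ∉ A then Hop A (a + 1 - 1) (rl (swap E h) (Hop B 1 z)) else 0) +
              (if h ∈ B ∧ E ∉ B then Hop A (a + 1) (Hop B (1 - 1) (rl (swap E h) z)) else 0)) +
            (if h ∈ A ∧ E ∉ A then Hop A (a + 2 - 1) (rl (swap E h) z) else 0) := by
          unfold kapa
          rw [map_add, map_sub, map_sub, pk_ne hh hE hAB hAC a 1 1 hz,
            pn2_ne hh hE hAC (a + 1) 1 hz, pn2_ne hh hE hAB (a + 1) 1 hz,
            pr_Hop_ne hh hE A (a + 2) hz]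
        rw [e]
        clear e
        have a1 : a + 1 - 1 = a := by ring
        have a2 : a + 2 - 1 = a + 1 := by ring
        have a3 : (1 : ℤ) - 1 = 0 := by norm_num
        rw [a1, a2, a3]
        simp only [Hop_zero, Module.End.one_apply]
        have gB := gap_le (A := A) (B := B) hZX
        have gC := gap_le (A := A) (B := C) hZX
        have hT : E ∉ B → ∑ G ∈ (Y ∩ B) \ C, rl (swap E G) (rl (swap G h) z) =
            ∑ G ∈ (Y ∩ B) \ C, rl (swap h G) (rl (swap E h) z) := by
          intro hEB
          refine Finset.sum_congr rfl fun G hG => ?_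
          rw [Finset.mem_sdiff, Finset.mem_inter] at hG
          have q1 : G ≠ h := fun h' => hh (h' ▸ hG.1.1)
          have q2 : G ≠ E := fun h' => hEB (h' ▸ hG.1.2)
          exact rl_rl_three q1 q2 hEh z
        have hTm : E ∉ B → ∀ G ∈ (Y ∩ B) \ C, ∀ y ∈ WS ((insert h Y).erase E),
            rl (swap h G) y ∈ WS ((insert h Y).erase E) := by
          intro hEB G hG y hy
          rw [Finset.mem_sdiff, Finset.mem_inter] at hG
          exact rl_swap_mem hhZ (Finset.mem_erase.2 ⟨fun h' => hEB (h' ▸ hG.1.2),
            Finset.mem_insert_of_mem hG.1.1⟩) hy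
        have hTn : E ∉ B → WN (Hop A a (∑ G ∈ (Y ∩ B) \ C, rl (swap h G) (rl (swap E h) z))) := by
          intro hEB
          exact WN_Hop A a (Submodule.sum_mem _ fun G hG => hTm hEB G hG _ hzE)
            (WN.sum _ _ fun _ _ => WN_rl _ hnE)
        by_cases hEA : E ∈ A
        · have hEB := hAB hEA
          have hEC := hAC hEA
          simp only [hEA, hEB, hEC, not_true_eq_false, and_false, if_false, add_zero, map_zero,
            sub_zero]
          exact WN.zero
        by_cases hhA : h ∈ A
        · have hhB := hAB hhA
          have hhC := hAC hhA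
          have hI : E ∉ B → (B \ A) ∩ (insert h Y).erase E = (Y ∩ B) \ C := by
            intro hEB
            ext G
            simp only [Finset.mem_inter, Finset.mem_sdiff, Finset.mem_erase, Finset.mem_insert]
            constructor
            · rintro ⟨⟨g1, g2⟩, g3, g4 | g4⟩
              · exact absurd (g4 ▸ hhA) g2
              · exact ⟨⟨g4, g1⟩, fun g5 => g2 (hBC G (hsub g4) g1 g5)⟩
            · rintro ⟨⟨g1, g2⟩, g3⟩
              exact ⟨⟨g2, fun g5 => g3 (hAC g5)⟩, fun g5 => hEB (g5 ▸ g2), Or.inr g1⟩
          simp only [hhA, hhB, hhC, hEA, true_and, not_false_eq_true, if_true]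
          by_cases hEB : E ∈ B
          · have hEC : E ∉ C := fun h' => hEA (hBC E (hsub hE) hEB h')
            simp only [hEB, hEC, not_true_eq_false, not_false_eq_true, if_true, if_false,
              add_zero, zero_add]
            have g1 := gap_lt (A := A) (B := B) hE hEB hEA hhA
            have e : Hop A (a - 1) (rl (swap E h) (Hop B 1 (Hop C 1 z))) +
                Hop A a (Hop B 1 (rl (swap E h) z)) -
                (Hop A a (rl (swap E h) (Hop C 1 z)) + Hop A (a + 1) (rl (swap E h) z)) -
                Hop A a (rl (swap E h) (Hop B 1 z)) + Hop A (a + 1) (rl (swap E h) z) =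
                Hop A (a - 1) (Hop B 1 (Hop (C.erase h) 1 (rl (swap E h) z))) -
                  Hop A (a - 1 + 1) (Hop (C.erase h) 1 (rl (swap E h) z)) := by
              rw [cj_both hh hE hhB hEB 1 (Hop_mem _ _ hz), cj_out hh hE hEC 1 hz,
                cj_both hh hE hhB hEB 1 hz]
              have b1 : a - 1 + 1 = a := by ring
              rw [b1]
              abel
            rw [e]
            exact two_pos hAB (by omega) (by norm_num) (by omega) (Hop_mem _ _ hzE)
              (WN_Hop _ _ hzE hnE)
          · have hidB := hI hEB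
            by_cases hEC : E ∈ C
            · simp only [hEB, hEC, not_true_eq_false, not_false_eq_true, if_true, if_false,
                add_zero]
              rw [hT hEB]
              have g2 := gap_lt (A := A) (B := C) hE hEC hEA hhA
              have hCA : Hop C 1 (rl (swap E h) z) = Hop A 1 (rl (swap E h) z) := by
                refine Hop_congr (X := (insert h Y).erase E) (fun x hx => ?_) 1 hzE
                refine ⟨fun hx1 => ?_, fun hx1 => hAC hx1⟩
                by_contra hx2
                have h0 : ((C \ A) ∩ (insert h Y).erase E).card = 0 := by omega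
                rw [Finset.card_eq_zero] at h0
                have h3 : x ∈ (C \ A) ∩ (insert h Y).erase E :=
                  Finset.mem_inter.2 ⟨Finset.mem_sdiff.2 ⟨hx1, hx2⟩, hx⟩
                rw [h0] at h3
                exact Finset.notMem_empty _ h3
              have id1 := Hop_id1 hhA hAB hhZ a (Hop_mem A 1 hzE)
              have id2 := Hop_id1 hhA hAB hhZ (a + 1) hzE
              rw [hidB] at id1 id2
              rw [a1] at id2
              have hcm := Hop_comm hAB 1 1 hzE
              have e : Hop A (a - 1) (rl (swap E h) (Hop B 1 (Hop C 1 z))) +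
                  Hop A a (rl (swap E h) (Hop C 1 z) +
                    ∑ G ∈ (Y ∩ B) \ C, rl (swap h G) (rl (swap E h) z)) -
                  Hop A a (rl (swap E h) (Hop C 1 z)) -
                  (Hop A a (rl (swap E h) (Hop B 1 z)) + Hop A (a + 1) (rl (swap E h) z)) +
                  Hop A (a + 1) (rl (swap E h) z) =
                  (Hop (A.erase h) a (Hop A 1 (rl (swap E h) z)) -
                    Hop (A.erase h) (a + 1) (rl (swap E h) z)) +
                  Lam A A B (a - 1) (rl (swap E h) z) +
                  ∑ l ∈ (Y ∩ B) \ C,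
                    Hop A (a - 1) (rl (swap h l) (Hop A 1 (rl (swap E h) z))) := by
                unfold Lam
                rw [cj_out hh hE hEB 1 (Hop_mem _ _ hz), cj_both hh hE hhC hEC 1 hz,
                  cj_out hh hE hEB 1 hz, hCA, map_add, map_sum, hcm]
                have b1 : a - 1 + 1 = a := by ring
                have b2 : a - 1 + 2 = a + 1 := by ring
                rw [b1, b2]
                have i1 : Hop A (a - 1) (Hop (B.erase h) 1 (Hop A 1 (rl (swap E h) z))) =
                    Hop (A.erase h) a (Hop A 1 (rl (swap E h) z)) +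
                    Hop A (a - 1) (Hop B 1 (Hop A 1 (rl (swap E h) z))) +
                    ∑ l ∈ (Y ∩ B) \ C,
                      Hop A (a - 1) (rl (swap h l) (Hop A 1 (rl (swap E h) z))) -
                    Hop A a (Hop A 1 (rl (swap E h) z)) := by
                  rw [id1]
                  abel
                have i2 : Hop A (a + 1) (rl (swap E h) z) =
                    Hop (A.erase h) (a + 1) (rl (swap E h) z) +
                    (Hop A a (Hop B 1 (rl (swap E h) z)) -
                      Hop A a (Hop (B.erase h) 1 (rl (swap E h) z))) +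
                    ∑ l ∈ (Y ∩ B) \ C, Hop A a (rl (swap h l) (rl (swap E h) z)) := id2
                rw [i1, i2]
                abel
              rw [e]
              have hA' : A.erase h ⊆ A := Finset.erase_subset _ _
              have gA : (((A \ A.erase h) ∩ (insert h Y).erase E).card : ℤ) ≤ 1 := by
                have : (A \ A.erase h) ∩ (insert h Y).erase E ⊆ {h} := by
                  intro x hx
                  rw [Finset.mem_inter, Finset.mem_sdiff, Finset.mem_erase] at hx
                  rw [Finset.mem_singleton]
                  by_contra hne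
                  exact hx.1.2 ⟨hne, hx.1.1⟩
                have := Finset.card_le_card this
                rw [Finset.card_singleton] at this
                exact_mod_cast this
              have gAA : (((A \ A) ∩ (insert h Y).erase E).card : ℤ) = 0 := by
                rw [Finset.sdiff_self, Finset.empty_inter, Finset.card_empty]
                rfl
              refine WN.add (WN.add ?_ ?_) ?_
              · exact two_pos hA' (by omega) (by norm_num) (by omega) hzE hnE
              · exact Lam_pos' (Finset.Subset.refl A) hAB (by omega) (by omega) hzE hnE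
              · refine WN.sum _ _ fun l hl => ?_
                exact WN_Hop A (a - 1) (hTm hEB l hl _ (Hop_mem _ _ hzE))
                  (WN_rl _ (WN_Hop _ _ hzE hnE))
            · simp only [hEB, hEC, not_false_eq_true, if_true]
              rw [hT hEB]
              have id1 := Hop_id1 hhA hAB hhZ a (Hop_mem (C.erase h) 1 hzE)
              have id2 := Hop_id1 hhA hAB hhZ (a + 1) hzE
              rw [hidB] at id1 id2
              rw [a1] at id2
              have e : Hop A (a - 1) (rl (swap E h) (Hop B 1 (Hop C 1 z))) +
                  Hop A a (rl (swap E h) (Hop C 1 z) + Hop B 1 (rl (swap E h) z) +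
                    ∑ G ∈ (Y ∩ B) \ C, rl (swap h G) (rl (swap E h) z)) -
                  (Hop A a (rl (swap E h) (Hop C 1 z)) + Hop A (a + 1) (rl (swap E h) z)) -
                  (Hop A a (rl (swap E h) (Hop B 1 z)) + Hop A (a + 1) (rl (swap E h) z)) +
                  Hop A (a + 1) (rl (swap E h) z) =
                  (Hop A (a - 1) (Hop B 1 (Hop (C.erase h) 1 (rl (swap E h) z))) -
                    Hop A (a - 1 + 1) (Hop (C.erase h) 1 (rl (swap E h) z))) +
                  (Hop (A.erase h) a (Hop (C.erase h) 1 (rl (swap E h) z)) -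
                    Hop (A.erase h) (a + 1) (rl (swap E h) z)) +
                  ∑ l ∈ (Y ∩ B) \ C,
                    Hop A (a - 1) (rl (swap h l) (Hop (C.erase h) 1 (rl (swap E h) z))) := by
                rw [cj_out hh hE hEB 1 (Hop_mem _ _ hz), cj_out hh hE hEC 1 hz,
                  cj_out hh hE hEB 1 hz, map_add, map_add, map_sum]
                have b1 : a - 1 + 1 = a := by ring
                rw [b1]
                have i1 : Hop A (a - 1) (Hop (B.erase h) 1
                    (Hop (C.erase h) 1 (rl (swap E h) z))) =
                    Hop (A.erase h) a (Hop (C.erase h) 1 (rl (swap E h) z)) +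
                    Hop A (a - 1) (Hop B 1 (Hop (C.erase h) 1 (rl (swap E h) z))) +
                    ∑ l ∈ (Y ∩ B) \ C,
                      Hop A (a - 1) (rl (swap h l) (Hop (C.erase h) 1 (rl (swap E h) z))) -
                    Hop A a (Hop (C.erase h) 1 (rl (swap E h) z)) := by
                  rw [id1]
                  abel
                have i2 : Hop A (a + 1) (rl (swap E h) z) =
                    Hop (A.erase h) (a + 1) (rl (swap E h) z) +
                    (Hop A a (Hop B 1 (rl (swap E h) z)) -
                      Hop A a (Hop (B.erase h) 1 (rl (swap E h) z))) +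
                    ∑ l ∈ (Y ∩ B) \ C, Hop A a (rl (swap h l) (rl (swap E h) z)) := id2
                rw [i1, i2]
                abel
              rw [e]
              have hA' : A.erase h ⊆ C.erase h := Finset.erase_subset_erase _ hAC
              have gA : (((C.erase h \ A.erase h) ∩ (insert h Y).erase E).card : ℤ) ≤ 1 := by
                refine le_trans ?_ h2
                refine Int.ofNat_le.2 (Finset.card_le_card ?_)
                intro x hx
                rw [Finset.mem_inter, Finset.mem_sdiff, Finset.mem_erase, Finset.mem_erase] at hx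
                rw [Finset.mem_inter, Finset.mem_sdiff]
                exact ⟨⟨hx.1.1.2, fun h' => hx.1.2 ⟨hx.1.1.1, h'⟩⟩, hZX hx.2⟩
              refine WN.add (WN.add ?_ ?_) ?_
              · exact two_pos hAB (by omega) (by norm_num) (by omega) (Hop_mem _ _ hzE)
                  (WN_Hop _ _ hzE hnE)
              · exact two_pos hA' (by omega) (by norm_num) (by omega) hzE hnE
              · refine WN.sum _ _ fun l hl => ?_
                exact WN_Hop A (a - 1) (hTm hEB l hl _ (Hop_mem _ _ hzE))
                  (WN_rl _ (WN_Hop _ _ hzE hnE))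
        · by_cases hhB : h ∈ B
          · have hhC : h ∉ C := fun h' => hhA (hBC h (Finset.mem_insert_self _ _) hhB h')
            simp only [hhA, hhB, hhC, false_and, true_and, if_false, zero_add, add_zero, sub_zero]
            by_cases hEB : E ∈ B
            · simp only [hEB, not_true_eq_false, if_false, add_zero, map_zero, sub_zero]
              exact WN.zero
            · simp only [hEB, not_false_eq_true, if_true]
              by_cases hEC : E ∈ C
              · have e : rl (swap E h) (Hop C 1 z) = Hop B 1 (rl (swap E h) z) := by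
                  refine rl_gen _ C B ?_ 1 hz
                  intro x hx
                  have hxh : x ≠ h := fun h' => hh (h' ▸ hx)
                  have c1 : ∀ (S : Finset α) (y x : α), (((S \ A) ∩ insert h Y).card : ℤ) ≤ 1 →
                      y ∈ insert h Y → y ∈ S → y ∉ A → x ∈ insert h Y → x ∈ S → x ≠ y →
                      x ∈ A := by
                    intro S y x hS y1 y2 y3 x1 x2 x3
                    by_contra x4
                    have hS' : ((S \ A) ∩ insert h Y).card ≤ 1 := by exact_mod_cast hS
                    exact x3 (Finset.card_le_one.1 hS' x (Finset.mem_inter.2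
                      ⟨Finset.mem_sdiff.2 ⟨x2, x4⟩, x1⟩) y (Finset.mem_inter.2
                      ⟨Finset.mem_sdiff.2 ⟨y2, y3⟩, y1⟩))
                  rcases eq_or_ne x E with rfl | hxE
                  · rw [swap_apply_left]
                    exact ⟨fun _ => hhB, fun _ => hEC⟩
                  · rw [swap_apply_of_ne_of_ne hxE hxh]
                    exact ⟨fun hx1 => hAB (c1 C E x h2 (hsub hE) hEC hEA (hsub hx) hx1 hxE),
                      fun hx1 => hAC (c1 B h x h1 (Finset.mem_insert_self _ _) hhB hhA
                        (hsub hx) hx1 hxh)⟩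
                rw [e]
                exact two_pos hAB (by omega) (by norm_num) (by omega) hzE hnE
              · have e : rl (swap E h) (Hop C 1 z) = Hop C 1 (rl (swap E h) z) := by
                  refine rl_gen _ C C ?_ 1 hz
                  intro x hx
                  have hxh : x ≠ h := fun h' => hh (h' ▸ hx)
                  rcases eq_or_ne x E with rfl | hxE
                  · rw [swap_apply_left]
                    exact ⟨fun h' => absurd h' hEC, fun h' => absurd h' hhC⟩
                  · rw [swap_apply_of_ne_of_ne hxE hxh]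
                rw [e]
                exact two_pos hAC (by omega) (by norm_num) (by omega) hzE hnE
          · by_cases hhC : h ∈ C
            · simp only [hhA, hhB, hhC, false_and, true_and, if_false, zero_add, sub_zero,
                add_zero]
              by_cases hEB : E ∈ B
              · have hEC : E ∉ C := fun h' => hEA (hBC E (hsub hE) hEB h')
                simp only [hEB, hEC, not_true_eq_false, not_false_eq_true, if_true, if_false,
                  add_zero]
                exact two_pos hAB (by omega) (by norm_num) (by omega) hzE hnE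
              · by_cases hEC : E ∈ C
                · simp only [hEB, hEC, not_true_eq_false, not_false_eq_true, if_true, if_false,
                    zero_add, sub_zero]
                  rw [hT hEB]
                  exact hTn hEB
                · simp only [hEB, hEC, not_false_eq_true, if_true]
                  rw [hT hEB, map_add]
                  have p1 := two_pos hAB (a := a) (b := 1) (by omega) (by norm_num) (by omega)
                    hzE hnE
                  have p3 := WN.add p1 (hTn hEB)
                  convert p3 using 1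
                  abel
            · simp only [hhA, hhB, hhC, false_and, if_false, add_zero, sub_zero, map_zero]
              exact WN.zero

/-- G3 -/
theorem kapa_pos {X A B C : Finset α} (hAB : A ⊆ B) (hAC : A ⊆ C)
    (hBC : ∀ x ∈ X, x ∈ B → x ∈ C → x ∈ A) {a : ℤ} (ha : 2 ≤ a)
    (h1 : ((B \ A) ∩ X).card ≤ 1) (h2 : ((C \ A) ∩ X).card ≤ 1) {z : Wd α} (hz : z ∈ WS X)
    (hn : WN z) : WN (kapa A B C a z) :=
  kapa_pos_aux _ X rfl A B C a hAB hAC hBC ha (by exact_mod_cast h1) (by exact_mod_cast h2) z hz hn

end H50R
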